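import Mathlib
import Pool.Agent.H27.Scd3

set_option autoImplicit false

namespace Pool.Agent.Results.MP_94cdcb_an.SumNotSCD

open Filter Topology Set
open scoped Pointwise

/-- The slice of `A` given by the functional `f` and `ε`. -/
def slice {X : Type} [NormedAddCommGroup X] [NormedSpace ℝ X] (A : Set X) (f : X →L[ℝ] ℝ)
    (ε : ℝ) : Set X :=
  {x ∈ A | sSup (f '' A) - ε < f x}

/-- A sequence of nonempty subsets of `A` is determining for `A`. -/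
def Determining {X : Type} [NormedAddCommGroup X] [NormedSpace ℝ X] (A : Set X)
    (V : ℕ → Set X) : Prop :=
  (∀ n, (V n).Nonempty ∧ V n ⊆ A) ∧
    ∀ B : Set X, (∀ n, (B ∩ V n).Nonempty) → A ⊆ closure (convexHull ℝ B)

/-- Slicely countably determined sets. -/
def SCD {X : Type} [NormedAddCommGroup X] [NormedSpace ℝ X] (A : Set X) : Prop :=
  Bornology.IsBounded A ∧ ∃ (f : ℕ → X →L[ℝ] ℝ) (ε : ℕ → ℝ), (∀ n, f n ≠ 0 ∧ 0 < ε n) ∧
    Determining A fun n => slice A (f n) (ε n)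

/-- Hereditarily SCD sets: every nonempty subset is SCD. -/
def HSCD {X : Type} [NormedAddCommGroup X] [NormedSpace ℝ X] (U : Set X) : Prop :=
  Bornology.IsBounded U ∧ ∀ A ⊆ U, A.Nonempty → SCD A

open Pool.Agent.H27.Scd

theorem bdd : Bornology.IsBounded (range d) :=
  (Metric.isBounded_closedBall (x := 0) (r := 2)).subset (by
    rintro _ ⟨n, rfl⟩; exact mem_closedBall_zero_iff.2 (d_norm n))

theorem hscd (S : Set ℕ) : HSCD (d '' S) := by
  refine ⟨bdd.subset (image_subset_range _ _), fun A hA hne => ?_⟩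
  have hA' : A ⊆ range d := hA.trans (image_subset_range _ _)
  obtain ⟨n, hn⟩ := (to_countable (d ⁻¹' A)).exists_eq_range (by
    obtain ⟨x, hx⟩ := hne
    obtain ⟨k, rfl⟩ := hA' hx
    exact ⟨k, hx⟩)
  have hnA : ∀ j, d (n j) ∈ A := fun j => by
    have : n j ∈ d ⁻¹' A := hn ▸ mem_range_self j
    exact this
  have hlt : ∀ m k, m ≠ k → d m (tau k) < 1 := fun m k h => by
    have := (abs_le.1 (d_not_le (Cs_disj h.symm (tau_mem k)))).2
    linarith [eta_pos m]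
  have hsup : ∀ j, sSup (ContinuousMap.evalCLM ℝ (tau (n j)) '' A) = 1 + eta (n j) := fun j => by
    refine IsGreatest.csSup_eq ⟨⟨_, hnA j, d_mem (tau_mem _)⟩, ?_⟩
    rintro _ ⟨x, hx, rfl⟩
    obtain ⟨m, rfl⟩ := hA' hx
    by_cases h : m = n j
    · rw [h]; exact (d_mem (tau_mem _)).le
    · exact (hlt m _ h).le.trans (by linarith [eta_pos (n j)])
  refine ⟨bdd.subset hA', fun j => ContinuousMap.evalCLM ℝ (tau (n j)), fun j => eta (n j),
    fun j => ⟨fun h => ?_, eta_pos _⟩, fun j => ⟨⟨d (n j), hnA j, ?_⟩, fun x hx => hx.1⟩,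
    fun B hB x hx => ?_⟩
  · have := DFunLike.congr_fun h 1
    simp at this
  · rw [hsup]
    show _ < d (n j) (tau (n j))
    rw [d_mem (tau_mem _)]
    linarith [eta_pos (n j)]
  · obtain ⟨k, rfl⟩ := hA' hx
    have : k ∈ range n := hn ▸ hx
    obtain ⟨j, rfl⟩ := this
    obtain ⟨b, hb1, hb2, hb3⟩ := hB j
    obtain ⟨m, rfl⟩ := hA' hb2
    rw [hsup] at hb3
    have h1 : m = n j := by
      by_contra h
      have h2 : 1 + eta (n j) - eta (n j) < d m (tau (n j)) := hb3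
      linarith [hlt m _ h]
    exact subset_closure (subset_convexHull ℝ B (h1 ▸ hb1))

/-- Two nonempty hereditarily SCD sets whose Minkowski sum is not SCD. -/
theorem result : ∃ (X : Type) (_ : NormedAddCommGroup X) (_ : NormedSpace ℝ X)
    (_ : CompleteSpace X) (U₁ U₂ : Set X), U₁.Nonempty ∧ U₂.Nonempty ∧ HSCD U₁ ∧ HSCD U₂ ∧
      ¬ SCD (U₁ + U₂) := by
  refine ⟨Y, inferInstance, inferInstance, inferInstance, d '' {n | n % 2 = 0}, d '' {n | n % 2 = 1},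
    ⟨_, 0, rfl, rfl⟩, ⟨_, 1, rfl, rfl⟩, hscd _, hscd _, ?_⟩
  rintro ⟨-, f, ε, -, h1, h2⟩
  have st : ∀ (n : ℕ) (Q : {Q : Set D // IsClopen Q ∧ Q.Nonempty}), ∃ E : Set D, IsClopen E ∧
      E.Nonempty ∧ E ⊆ Q.1 ∧ ∃ y ∈ slice (d '' {n | n % 2 = 0} + d '' {n | n % 2 = 1}) (f n) (ε n),
        ∀ t ∈ E, -1 / 2 ≤ y t := by
    intro n Q
    obtain ⟨_, ⟨_, ⟨i, hi, rfl⟩, _, ⟨j, hj, rfl⟩, rfl⟩, hx⟩ := (h1 n).1
    obtain ⟨E, e1, e2, e3, k, l, hk, hl, e4, e5⟩ := step2 (f n) hi hj hx Q.2.1.2 Q.2.2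
    exact ⟨E, e1, e2, e3, _, ⟨⟨_, ⟨k, hk, rfl⟩, _, ⟨l, hl, rfl⟩, rfl⟩, e4⟩, e5⟩
  choose G g1 g2 g3 g4 using st
  let Q : ℕ → {Q : Set D // IsClopen Q ∧ Q.Nonempty} := fun N =>
    Nat.rec ⟨univ, isClopen_univ, univ_nonempty⟩ (fun n Q => ⟨G n Q, g1 n Q, g2 n Q⟩) N
  obtain ⟨t, ht⟩ := IsCompact.nonempty_iInter_of_sequence_nonempty_isCompact_isClosed
    (fun n => (Q n).1) (fun n => g3 n (Q n)) (fun n => (Q n).2.2) (Q 0).2.1.1.isCompact
    (fun n => (Q n).2.1.1)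
  have h3 := h2 {y : Y | -1 / 2 ≤ y t} fun n => by
    obtain ⟨y, hy, h4⟩ := g4 n (Q n)
    exact ⟨y, h4 t (mem_iInter.1 ht (n + 1)), hy⟩
  have hc : Convex ℝ {y : Y | -1 / 2 ≤ y t} :=
    (convex_Ici (-1 / 2 : ℝ)).linear_preimage (ContinuousMap.evalCLM ℝ t : Y →L[ℝ] ℝ).toLinearMap
  rw [hc.convexHull_eq, (isClosed_le continuous_const (by fun_prop)).closure_eq] at h3
  obtain ⟨k, hk, k1⟩ := low t (r := 0) (by norm_num)
  obtain ⟨l, hl, l1⟩ := low t (r := 1) (by norm_num)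
  have h4 : -1 / 2 ≤ (d k + d l) t := h3 ⟨_, ⟨k, hk, rfl⟩, _, ⟨l, hl, rfl⟩, rfl⟩
  rw [ContinuousMap.add_apply] at h4
  linarith

end Pool.Agent.Results.MP_94cdcb_an.SumNotSCD
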